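import Pool.Agent.Q188.Half.Reduce

/-!
# The fundamental region has finite Hilbert area
-/

set_option autoImplicit false
open Matrix ENNReal

namespace Pool.Agent.Q188.Half

theorem closure_C_sub : closure C ⊆ {x : Fin 3 → ℝ | 0 ≤ x 0 ∧ 0 ≤ x 2 ∧ x 1 ^ 2 ≤ x 0 * x 2} := by
  apply closure_minimal
  · intro x hx
    exact ⟨hx.1.le, (pos2 hx).le, hx.2.le⟩
  · apply IsClosed.inter
    · exact isClosed_le continuous_const (continuous_apply 0)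
    · apply IsClosed.inter
      · exact isClosed_le continuous_const (continuous_apply 2)
      · exact isClosed_le ((continuous_apply 1).pow 2)
          ((continuous_apply 0).mul (continuous_apply 2))

/-- The Hilbert metric. -/
noncomputable def hd (x y : Fin 3 → ℝ) : ℝ :=
  (1 / 2) * Real.log (sInf {t : ℝ | t • y - x ∈ closure C} * sInf {t : ℝ | t • x - y ∈ closure C})

theorem sInf_bounds {x y : Fin 3 → ℝ} (hx : x ∈ C) (hy : y ∈ C) {t : ℝ}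
    (ht : t • y - x ∈ closure C) :
    0 < sInf {t : ℝ | t • y - x ∈ closure C} ∧ sInf {t : ℝ | t • y - x ∈ closure C} ≤ t := by
  have hx2 := pos2 hx
  have hy2 := pos2 hy
  have hlow : ∀ s ∈ {t : ℝ | t • y - x ∈ closure C}, x 2 / y 2 ≤ s := by
    intro s hs
    have h1 := (closure_C_sub hs).2.1
    have h2 : 0 ≤ s * y 2 - x 2 := h1
    rw [div_le_iff₀ hy2]
    linarith
  refine ⟨(div_pos hx2 hy2).trans_le (le_csInf ⟨t, ht⟩ hlow), csInf_le ⟨_, hlow⟩ ht⟩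

/-- The imaginary part. -/
noncomputable def Yf (x : Fin 3 → ℝ) : ℝ := Real.sqrt (x 0 * x 2 - x 1 ^ 2) / x 2

theorem Yf_sq {x : Fin 3 → ℝ} (hx : x ∈ C) : Yf x ^ 2 * x 2 ^ 2 = x 0 * x 2 - x 1 ^ 2 := by
  have hx2 := pos2 hx
  rw [Yf, div_pow, Real.sq_sqrt (by have := hx.2; linarith)]
  field_simp

theorem numeric {X1 X2 Y1 Y2 h m : ℝ} (hm : 1 ≤ m) (hh : 0 < h) (hh1 : h ≤ 1)
    (hX : |X1 - X2| ≤ h) (hY : |Y1 - Y2| ≤ h / 2) (hY1 : m / 2 ≤ Y1) (hY2 : m / 2 ≤ Y2) :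
    (1 + 10 * h / m) * (X1 - X2) ^ 2 < (10 * h / m) * ((1 + 10 * h / m) * Y2 ^ 2 - Y1 ^ 2) := by
  set ε := 10 * h / m with hε
  have hm0 : 0 < m := by linarith
  have hε0 : 0 < ε := by rw [hε]; positivity
  have e : ε * m = 10 * h := by rw [hε]; field_simp
  have hε10 : ε ≤ 10 := by
    rw [hε, div_le_iff₀ hm0]
    nlinarith
  have hY2p : 0 < Y2 := by linarith
  have h1 : h ≤ ε * Y2 / 5 := by nlinarith
  have h2 : |X1 - X2| ≤ ε * Y2 / 5 := hX.trans h1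
  have h3 : (X1 - X2) ^ 2 ≤ (ε * Y2 / 5) ^ 2 := by
    rw [← sq_abs]
    exact pow_le_pow_left₀ (abs_nonneg _) h2 2
  have h4 : Y1 - Y2 ≤ ε * Y2 / 10 := by
    have := (abs_le.1 hY).2
    linarith
  have h5 : Y1 ≤ 2 * Y2 := by
    have := (abs_le.1 hY).2
    linarith
  have hY1p : 0 < Y1 := by linarith
  have h6 : Y1 ^ 2 - Y2 ^ 2 ≤ 3 / 10 * ε * Y2 ^ 2 := by
    have h7 : Y1 ^ 2 - Y2 ^ 2 = (Y1 - Y2) * (Y1 + Y2) := by ring
    have h8 : (Y1 - Y2) * (Y1 + Y2) ≤ (ε * Y2 / 10) * (Y1 + Y2) :=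
      mul_le_mul_of_nonneg_right h4 (by linarith)
    have h9 : (ε * Y2 / 10) * (Y1 + Y2) ≤ (ε * Y2 / 10) * (3 * Y2) :=
      mul_le_mul_of_nonneg_left (by linarith) (by positivity)
    calc Y1 ^ 2 - Y2 ^ 2 = (Y1 - Y2) * (Y1 + Y2) := h7
      _ ≤ _ := h8.trans h9
      _ = 3 / 10 * ε * Y2 ^ 2 := by ring
  have h10 : (1 + ε) * (X1 - X2) ^ 2 ≤ 11 * (ε * Y2 / 5) ^ 2 :=
    mul_le_mul (by linarith) h3 (sq_nonneg _) (by norm_num)
  have h11 : 7 / 10 * ε * Y2 ^ 2 ≤ (1 + ε) * Y2 ^ 2 - Y1 ^ 2 := by linarith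
  have h12 : ε * (7 / 10 * ε * Y2 ^ 2) ≤ ε * ((1 + ε) * Y2 ^ 2 - Y1 ^ 2) :=
    mul_le_mul_of_nonneg_left h11 hε0.le
  have h13 : 0 < (ε * Y2) ^ 2 := by positivity
  calc (1 + ε) * (X1 - X2) ^ 2 ≤ 11 * (ε * Y2 / 5) ^ 2 := h10
    _ < ε * (7 / 10 * ε * Y2 ^ 2) := by nlinarith
    _ ≤ _ := h12

theorem mem_of_close {x y : Fin 3 → ℝ} (hx : x ∈ C) (hy : y ∈ C) {h m : ℝ} (hm : 1 ≤ m)
    (hh : 0 < h) (hh1 : h ≤ 1) (hX : |x 1 / x 2 - y 1 / y 2| ≤ h) (hY : |Yf x - Yf y| ≤ h / 2)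
    (hY1 : m / 2 ≤ Yf x) (hY2 : m / 2 ≤ Yf y) :
    (x 2 / y 2 * (1 + 10 * h / m)) • y - x ∈ C := by
  have hx2 := pos2 hx
  have hy2 := pos2 hy
  have key := numeric hm hh hh1 hX hY hY1 hY2
  have hε0 : 0 < 10 * h / m := by positivity
  set ε := 10 * h / m
  have ex0 : x 0 = x 2 * ((x 1 / x 2) ^ 2 + Yf x ^ 2) := by
    have := Yf_sq hx
    field_simp
    linarith
  have ey0 : y 0 = y 2 * ((y 1 / y 2) ^ 2 + Yf y ^ 2) := by
    have := Yf_sq hy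
    field_simp
    linarith
  have ex1 : x 1 = x 2 * (x 1 / x 2) := by field_simp
  have ey1 : y 1 = y 2 * (y 1 / y 2) := by field_simp
  set X1 := x 1 / x 2
  set X2 := y 1 / y 2
  set Y1 := Yf x
  set Y2 := Yf y
  have e0 : ((x 2 / y 2 * (1 + ε)) • y - x) 0 =
      x 2 * ((1 + ε) * (X2 ^ 2 + Y2 ^ 2) - (X1 ^ 2 + Y1 ^ 2)) := by
    show x 2 / y 2 * (1 + ε) * y 0 - x 0 = _
    rw [ex0, ey0]
    field_simp
  have e1 : ((x 2 / y 2 * (1 + ε)) • y - x) 1 = x 2 * ((1 + ε) * X2 - X1) := by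
    show x 2 / y 2 * (1 + ε) * y 1 - x 1 = _
    rw [ex1, ey1]
    field_simp
  have e2 : ((x 2 / y 2 * (1 + ε)) • y - x) 2 = x 2 * ε := by
    show x 2 / y 2 * (1 + ε) * y 2 - x 2 = _
    field_simp
    ring
  have hdet : ((1 + ε) * X2 - X1) ^ 2 <
      ((1 + ε) * (X2 ^ 2 + Y2 ^ 2) - (X1 ^ 2 + Y1 ^ 2)) * ε := by
    nlinarith
  have hpos : 0 < (1 + ε) * (X2 ^ 2 + Y2 ^ 2) - (X1 ^ 2 + Y1 ^ 2) := by
    have : 0 < ((1 + ε) * (X2 ^ 2 + Y2 ^ 2) - (X1 ^ 2 + Y1 ^ 2)) * ε :=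
      lt_of_le_of_lt (sq_nonneg _) hdet
    exact (pos_iff_pos_of_mul_pos this).2 hε0
  constructor
  · rw [e0]
    positivity
  · rw [e0, e1, e2]
    have : 0 < x 2 ^ 2 := by positivity
    nlinarith

theorem hd_le {x y : Fin 3 → ℝ} (hx : x ∈ C) (hy : y ∈ C) {h m : ℝ} (hm : 1 ≤ m)
    (hh : 0 < h) (hh1 : h ≤ 1) (hX : |x 1 / x 2 - y 1 / y 2| ≤ h) (hY : |Yf x - Yf y| ≤ h / 2)
    (hY1 : m / 2 ≤ Yf x) (hY2 : m / 2 ≤ Yf y) : hd x y ≤ 10 * h / m := by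
  have hx2 := pos2 hx
  have hy2 := pos2 hy
  have h1 := subset_closure (mem_of_close hx hy hm hh hh1 hX hY hY1 hY2)
  have h2 := subset_closure (mem_of_close hy hx hm hh hh1 (by rwa [abs_sub_comm])
    (by rwa [abs_sub_comm]) hY2 hY1)
  have hε0 : 0 < 10 * h / m := by positivity
  set ε := 10 * h / m
  obtain ⟨a1, a2⟩ := sInf_bounds hx hy h1
  obtain ⟨b1, b2⟩ := sInf_bounds hy hx h2
  set s1 := sInf {t : ℝ | t • y - x ∈ closure C}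
  set s2 := sInf {t : ℝ | t • x - y ∈ closure C}
  have h3 : s1 * s2 ≤ (1 + ε) ^ 2 := by
    calc s1 * s2 ≤ (x 2 / y 2 * (1 + ε)) * (y 2 / x 2 * (1 + ε)) :=
          mul_le_mul a2 b2 b1.le (by positivity)
      _ = (1 + ε) ^ 2 := by field_simp
  have h4 : Real.log (s1 * s2) ≤ 2 * ε := by
    calc Real.log (s1 * s2) ≤ Real.log ((1 + ε) ^ 2) := Real.log_le_log (mul_pos a1 b1) h3
      _ = 2 * Real.log (1 + ε) := by rw [Real.log_pow]; norm_num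
      _ ≤ 2 * ε := by
        have := Real.log_le_sub_one_of_pos (show 0 < 1 + ε by positivity)
        linarith
  show 1 / 2 * Real.log (s1 * s2) ≤ ε
  linarith

/-- The boxes of the cover. -/
def Box (N : ℕ) (p : ℕ × Fin (3 * N + 1) × Fin N) : Set (Fin 3 → ℝ) :=
  {x | x ∈ C ∧ (-(3 / 2) + (p.2.1 : ℝ) / N ≤ x 1 / x 2 ∧
      x 1 / x 2 ≤ -(3 / 2) + ((p.2.1 : ℝ) + 1) / N) ∧
    (((p.1 : ℝ) + 1) / 2 + (p.2.2 : ℝ) / (2 * N) ≤ Yf x ∧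
      Yf x ≤ ((p.1 : ℝ) + 1) / 2 + ((p.2.2 : ℝ) + 1) / (2 * N))}

theorem Box_hd {N : ℕ} (hN : 0 < N) (p : ℕ × Fin (3 * N + 1) × Fin N) {x y : Fin 3 → ℝ}
    (hx : x ∈ Box N p) (hy : y ∈ Box N p) : hd x y ≤ 10 / (N * ((p.1 : ℝ) + 1)) := by
  obtain ⟨hxC, ⟨hx1, hx2⟩, hx3, hx4⟩ := hx
  obtain ⟨hyC, ⟨hy1, hy2⟩, hy3, hy4⟩ := hy
  have hN0 : (0 : ℝ) < N := by exact_mod_cast hN
  have hN1 : (1 : ℝ) ≤ N := by exact_mod_cast hN
  have e1 : -(3 / 2) + ((p.2.1 : ℝ) + 1) / N = -(3 / 2) + (p.2.1 : ℝ) / N + 1 / N := by ring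
  have e2 : ((p.1 : ℝ) + 1) / 2 + ((p.2.2 : ℝ) + 1) / (2 * N) =
      ((p.1 : ℝ) + 1) / 2 + (p.2.2 : ℝ) / (2 * N) + 1 / N / 2 := by
    field_simp
    ring
  rw [e1] at hx2 hy2
  rw [e2] at hx4 hy4
  have hk : 0 ≤ (p.2.2 : ℝ) / (2 * N) := by positivity
  have h1 := hd_le hxC hyC (h := 1 / N) (m := (p.1 : ℝ) + 1) (by
      have : (0 : ℝ) ≤ p.1 := Nat.cast_nonneg _
      linarith) (by positivity) (by rw [div_le_iff₀ hN0]; linarith)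
    (abs_le.2 ⟨by linarith, by linarith⟩) (abs_le.2 ⟨by linarith, by linarith⟩)
    (by linarith) (by linarith)
  refine h1.trans (le_of_eq ?_)
  field_simp

theorem F_sub {N : ℕ} (hN : 0 < N) : F ⊆ ⋃ p, Box N p := by
  rintro x ⟨hxC, h1, h2, h3⟩
  have hx2 := pos2 hxC
  have hN0 : (0 : ℝ) < N := by exact_mod_cast hN
  have hX1 : -(3 / 2) ≤ x 1 / x 2 := by
    rw [le_div_iff₀ hx2]; linarith
  have hX2 : x 1 / x 2 ≤ 3 / 2 := by
    rw [div_le_iff₀ hx2]; linarith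
  have hY : 1 / 2 ≤ Yf x := by
    have hpos : 0 ≤ Yf x := by
      rw [Yf]
      positivity
    have h4 := Yf_sq hxC
    have h5 : 0 < x 2 ^ 2 := by positivity
    have h6 : (1 / 2) ^ 2 ≤ Yf x ^ 2 := by
      by_contra hcon
      push Not at hcon
      nlinarith
    exact le_of_sq_le_sq h6 hpos
  -- the indices
  set a := (x 1 / x 2 + 3 / 2) * N with ha
  have ha0 : 0 ≤ a := mul_nonneg (by linarith) hN0.le
  have ha1 : a ≤ 3 * N := by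
    rw [ha]
    nlinarith
  have hj : ⌊a⌋₊ < 3 * N + 1 := by
    have h7 : (⌊a⌋₊ : ℝ) ≤ a := Nat.floor_le ha0
    have h8 : (⌊a⌋₊ : ℝ) ≤ ((3 * N : ℕ) : ℝ) := by push_cast; linarith
    have h9 : ⌊a⌋₊ ≤ 3 * N := by exact_mod_cast h8
    omega
  set b := 2 * Yf x - 1 with hb
  have hb0 : 0 ≤ b := by linarith
  set m := ⌊b⌋₊ with hm
  have hm1 : (m : ℝ) ≤ b := Nat.floor_le hb0
  have hm2 : b < m + 1 := Nat.lt_floor_add_one b
  set c := (Yf x - ((m : ℝ) + 1) / 2) * (2 * N) with hc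
  have hc0 : 0 ≤ c := mul_nonneg (by linarith) (by positivity)
  have hc1 : c < N := by
    rw [hc]
    nlinarith
  have hk : ⌊c⌋₊ < N := by
    rw [Nat.floor_lt hc0]
    exact hc1
  refine Set.mem_iUnion.2 ⟨(m, ⟨⌊a⌋₊, hj⟩, ⟨⌊c⌋₊, hk⟩), hxC, ⟨?_, ?_⟩, ?_, ?_⟩
  · show -(3 / 2) + (⌊a⌋₊ : ℝ) / N ≤ x 1 / x 2
    have h7 : (⌊a⌋₊ : ℝ) ≤ a := Nat.floor_le ha0
    have h8 : (⌊a⌋₊ : ℝ) / N ≤ x 1 / x 2 + 3 / 2 := by
      rw [div_le_iff₀ hN0]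
      exact h7
    linarith
  · show x 1 / x 2 ≤ -(3 / 2) + ((⌊a⌋₊ : ℝ) + 1) / N
    have h7 : a < ⌊a⌋₊ + 1 := Nat.lt_floor_add_one a
    have h8 : x 1 / x 2 + 3 / 2 ≤ ((⌊a⌋₊ : ℝ) + 1) / N := by
      rw [le_div_iff₀ hN0]
      exact h7.le
    linarith
  · show ((m : ℝ) + 1) / 2 + (⌊c⌋₊ : ℝ) / (2 * N) ≤ Yf x
    have h7 : (⌊c⌋₊ : ℝ) ≤ c := Nat.floor_le hc0
    have h8 : (⌊c⌋₊ : ℝ) / (2 * N) ≤ Yf x - ((m : ℝ) + 1) / 2 := by
      rw [div_le_iff₀ (by positivity)]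
      exact h7
    linarith
  · show Yf x ≤ ((m : ℝ) + 1) / 2 + ((⌊c⌋₊ : ℝ) + 1) / (2 * N)
    have h7 : c < ⌊c⌋₊ + 1 := Nat.lt_floor_add_one c
    have h8 : Yf x - ((m : ℝ) + 1) / 2 ≤ ((⌊c⌋₊ : ℝ) + 1) / (2 * N) := by
      rw [le_div_iff₀ (by positivity)]
      exact h7.le
    linarith

/-- The diameter for the Hilbert metric. -/
noncomputable def dm (U : Set (Fin 3 → ℝ)) : ℝ≥0∞ := ⨆ x ∈ U, ⨆ y ∈ U, ENNReal.ofReal (hd x y)

theorem dm_empty : dm ∅ = 0 := by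
  simp [dm]

theorem dm_Box {N : ℕ} (hN : 0 < N) (p : ℕ × Fin (3 * N + 1) × Fin N) :
    dm (Box N p) ≤ ENNReal.ofReal (10 / (N * ((p.1 : ℝ) + 1))) := by
  refine iSup₂_le fun x hx => iSup₂_le fun y hy => ?_
  exact ENNReal.ofReal_le_ofReal (Box_hd hN p hx hy)

theorem sum_Box {N : ℕ} (hN : 0 < N) :
    ∑' p, dm (Box N p) ^ 2 ≤ ∑' m : ℕ, ENNReal.ofReal (400 / ((m : ℝ) + 1) ^ 2) := by
  have hN0 : (0 : ℝ) < N := by exact_mod_cast hN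
  have hN1 : (1 : ℝ) ≤ N := by exact_mod_cast hN
  calc ∑' p, dm (Box N p) ^ 2
      ≤ ∑' p : ℕ × Fin (3 * N + 1) × Fin N,
          ENNReal.ofReal ((10 / (N * ((p.1 : ℝ) + 1))) ^ 2) := by
        refine ENNReal.tsum_le_tsum fun p => ?_
        rw [ENNReal.ofReal_pow (by positivity)]
        gcongr
        exact dm_Box hN p
    _ = ∑' m : ℕ, ∑' _ : Fin (3 * N + 1) × Fin N,
          ENNReal.ofReal ((10 / (N * ((m : ℝ) + 1))) ^ 2) := by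
        rw [ENNReal.tsum_prod']
    _ ≤ _ := by
        refine ENNReal.tsum_le_tsum fun m => ?_
        rw [tsum_fintype, Finset.sum_const, Finset.card_univ, Fintype.card_prod, Fintype.card_fin,
          Fintype.card_fin, nsmul_eq_mul, ← ENNReal.ofReal_natCast, ← ENNReal.ofReal_mul
          (Nat.cast_nonneg _)]
        apply ENNReal.ofReal_le_ofReal
        push_cast
        rw [div_pow, mul_pow]
        have h1 : (3 * (N : ℝ) + 1) * N ≤ 4 * N ^ 2 := by nlinarith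
        calc (3 * (N : ℝ) + 1) * N * (10 ^ 2 / ((N : ℝ) ^ 2 * ((m : ℝ) + 1) ^ 2))
            ≤ 4 * N ^ 2 * (10 ^ 2 / ((N : ℝ) ^ 2 * ((m : ℝ) + 1) ^ 2)) :=
              mul_le_mul_of_nonneg_right h1 (by positivity)
          _ = 400 / ((m : ℝ) + 1) ^ 2 := by
              field_simp
              norm_num

theorem sum_ne_top : ∑' m : ℕ, ENNReal.ofReal (400 / ((m : ℝ) + 1) ^ 2) < ⊤ := by
  apply Summable.tsum_ofReal_lt_top
  have h := (Real.summable_nat_pow_inv (p := 2)).2 (by norm_num)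
  have h2 := ((summable_nat_add_iff 1).2 h).mul_left 400
  refine h2.congr fun m => ?_
  push_cast
  rw [div_eq_mul_inv]

/-- The two-dimensional Hausdorff measure of the Hilbert metric. -/
noncomputable def Hm (S : Set (Fin 3 → ℝ)) : ℝ≥0∞ :=
  ⨆ (r : ℝ) (_ : 0 < r), ⨅ (U : ℕ → Set (Fin 3 → ℝ)) (_ : S ⊆ ⋃ i, U i)
    (_ : ∀ i, U i ⊆ C ∧ dm (U i) ≤ ENNReal.ofReal r), ∑' i, dm (U i) ^ 2

theorem Hm_F : Hm F < ⊤ := by
  refine lt_of_le_of_lt ?_ sum_ne_top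
  refine iSup₂_le fun r hr => ?_
  obtain ⟨N, hN⟩ := exists_nat_gt (10 / r)
  have hNr : (0 : ℝ) < N := lt_trans (by positivity) hN
  have hN0 : 0 < N := by exact_mod_cast hNr
  let U : ℕ → Set (Fin 3 → ℝ) := fun i =>
    ⋃ b ∈ Encodable.decode₂ (ℕ × Fin (3 * N + 1) × Fin N) i, Box N b
  have hU : ∀ i, U i ⊆ C ∧ dm (U i) ≤ ENNReal.ofReal r := by
    intro i
    rcases h : Encodable.decode₂ (ℕ × Fin (3 * N + 1) × Fin N) i with _ | p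
    · have e : U i = ∅ := by
        simp only [U, h]
        simp
      rw [e, dm_empty]
      exact ⟨Set.empty_subset _, zero_le⟩
    · have e : U i = Box N p := by
        simp only [U, h]
        simp
      rw [e]
      refine ⟨fun x hx => hx.1, (dm_Box hN0 p).trans (ENNReal.ofReal_le_ofReal ?_)⟩
      have h1 : (1 : ℝ) ≤ (p.1 : ℝ) + 1 := by
        have : (0 : ℝ) ≤ p.1 := Nat.cast_nonneg _
        linarith
      rw [div_le_iff₀ (by positivity)]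
      rw [div_lt_iff₀ hr] at hN
      nlinarith [mul_nonneg hr.le hNr.le]
  have hcov : F ⊆ ⋃ i, U i := by
    intro x hx
    obtain ⟨p, hp⟩ := Set.mem_iUnion.1 (F_sub hN0 hx)
    refine Set.mem_iUnion.2 ⟨Encodable.encode p, ?_⟩
    simp only [U, Encodable.encodek₂]
    simpa using hp
  refine iInf_le_of_le U (iInf_le_of_le hcov (iInf_le_of_le hU ?_))
  have e : ∑' i, dm (U i) ^ 2 = ∑' p, dm (Box N p) ^ 2 :=
    tsum_iUnion_decode₂ (fun S => dm S ^ 2) (by simp [dm_empty]) (Box N)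
  rw [e]
  exact sum_Box hN0

end Pool.Agent.Q188.Half
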