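import Mathlib

/-!
# A Coxeter group generated by half-turns

The universal Coxeter group of rank three acts on the cone of positive definite binary quadratic
forms through the half-turns about `i`, `1 + i`, `-1 + i`.
-/

set_option autoImplicit false
open Matrix

namespace Pool.Agent.Q188.Half

/-- The cone of positive definite binary quadratic forms. -/
def C : Set (Fin 3 → ℝ) := {x | 0 < x 0 ∧ x 1 ^ 2 < x 0 * x 2}

/-- The three half-turns. -/
def A : Fin 3 → Matrix (Fin 3) (Fin 3) ℝ :=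
  ![!![0, 0, 1; 0, -1, 0; 1, 0, 0], !![1, -4, 4; 1, -3, 2; 1, -2, 1],
    !![1, 4, 4; -1, -3, -2; 1, 2, 1]]

/-- Linear functionals negated by the half-turns. -/
def al : Fin 3 → (Fin 3 → ℝ) → ℝ :=
  ![fun x => x 0 - x 2, fun x => x 2 - x 1, fun x => x 1 + x 2]

theorem A_mulVec0 (x : Fin 3 → ℝ) : A 0 *ᵥ x = ![x 2, -x 1, x 0] := by
  ext i; fin_cases i <;> simp [A, Matrix.mulVec, dotProduct, Fin.sum_univ_three]

theorem A_mulVec1 (x : Fin 3 → ℝ) :
    A 1 *ᵥ x = ![x 0 - 4 * x 1 + 4 * x 2, x 0 - 3 * x 1 + 2 * x 2, x 0 - 2 * x 1 + x 2] := by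
  ext i; fin_cases i <;> simp [A, Matrix.mulVec, dotProduct, Fin.sum_univ_three] <;> ring

theorem A_mulVec2 (x : Fin 3 → ℝ) :
    A 2 *ᵥ x = ![x 0 + 4 * x 1 + 4 * x 2, -x 0 - 3 * x 1 - 2 * x 2, x 0 + 2 * x 1 + x 2] := by
  ext i; fin_cases i <;> simp [A, Matrix.mulVec, dotProduct, Fin.sum_univ_three] <;> ring

theorem A_sq (i : Fin 3) : A i * A i = 1 := by
  fin_cases i
  · ext a b; fin_cases a <;> fin_cases b <;> simp [A, Matrix.mul_apply, Fin.sum_univ_three]
  · ext a b; fin_cases a <;> fin_cases b <;> simp [A, Matrix.mul_apply, Fin.sum_univ_three] <;>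
      norm_num
  · ext a b; fin_cases a <;> fin_cases b <;> simp [A, Matrix.mul_apply, Fin.sum_univ_three] <;>
      norm_num

theorem A_det (i : Fin 3) : (A i).det = 1 := by
  fin_cases i <;> simp [A, Matrix.det_fin_three] <;> norm_num

/-- The half-turns as units. -/
def Au (i : Fin 3) : (Matrix (Fin 3) (Fin 3) ℝ)ˣ := ⟨A i, A i, A_sq i, A_sq i⟩

theorem pos2 {x : Fin 3 → ℝ} (hx : x ∈ C) : 0 < x 2 := by
  obtain ⟨h1, h2⟩ := hx
  by_contra h
  push Not at h
  nlinarith [sq_nonneg (x 1)]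

theorem A_mem (i : Fin 3) {x : Fin 3 → ℝ} (hx : x ∈ C) : A i *ᵥ x ∈ C := by
  have h2 := pos2 hx
  obtain ⟨h0, h1⟩ := hx
  fin_cases i
  · show A 0 *ᵥ x ∈ C
    rw [A_mulVec0]
    refine ⟨h2, ?_⟩
    show (-x 1) ^ 2 < x 2 * x 0
    nlinarith
  · show A 1 *ᵥ x ∈ C
    rw [A_mulVec1]
    constructor
    · show 0 < x 0 - 4 * x 1 + 4 * x 2
      have : 0 < x 2 * (x 0 - 4 * x 1 + 4 * x 2) := by nlinarith [sq_nonneg (x 1 - 2 * x 2)]
      exact (pos_iff_pos_of_mul_pos this).1 h2
    · show (x 0 - 3 * x 1 + 2 * x 2) ^ 2 < (x 0 - 4 * x 1 + 4 * x 2) * (x 0 - 2 * x 1 + x 2)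
      nlinarith
  · show A 2 *ᵥ x ∈ C
    rw [A_mulVec2]
    constructor
    · show 0 < x 0 + 4 * x 1 + 4 * x 2
      have : 0 < x 2 * (x 0 + 4 * x 1 + 4 * x 2) := by nlinarith [sq_nonneg (x 1 + 2 * x 2)]
      exact (pos_iff_pos_of_mul_pos this).1 h2
    · show (-x 0 - 3 * x 1 - 2 * x 2) ^ 2 < (x 0 + 4 * x 1 + 4 * x 2) * (x 0 + 2 * x 1 + x 2)
      nlinarith

theorem al_A (i : Fin 3) (x : Fin 3 → ℝ) : al i (A i *ᵥ x) = -al i x := by
  fin_cases i
  · show al 0 (A 0 *ᵥ x) = -al 0 x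
    rw [A_mulVec0]
    show x 2 - x 0 = -(x 0 - x 2)
    ring
  · show al 1 (A 1 *ᵥ x) = -al 1 x
    rw [A_mulVec1]
    show (x 0 - 2 * x 1 + x 2) - (x 0 - 3 * x 1 + 2 * x 2) = -(x 2 - x 1)
    ring
  · show al 2 (A 2 *ᵥ x) = -al 2 x
    rw [A_mulVec2]
    show (-x 0 - 3 * x 1 - 2 * x 2) + (x 0 + 2 * x 1 + x 2) = -(x 1 + x 2)
    ring

/-- Ping-pong. -/
theorem al_pos {x : Fin 3 → ℝ} (hx : x ∈ C) {i j : Fin 3} (hij : j ≠ i) (hi : al i x < 0) :
    0 < al j x := by
  have h2 := pos2 hx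
  obtain ⟨h0, h1⟩ := hx
  have key : ∀ j, j ≠ i → 0 < al j x := by
    fin_cases i
    · have hi' : x 0 - x 2 < 0 := hi
      intro j hj
      fin_cases j
      · exact absurd rfl hj
      · show 0 < x 2 - x 1
        nlinarith
      · show 0 < x 1 + x 2
        nlinarith
    · have hi' : x 2 - x 1 < 0 := hi
      intro j hj
      fin_cases j
      · show 0 < x 0 - x 2
        nlinarith
      · exact absurd rfl hj
      · show 0 < x 1 + x 2
        nlinarith
    · have hi' : x 1 + x 2 < 0 := hi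
      intro j hj
      fin_cases j
      · show 0 < x 0 - x 2
        nlinarith
      · show 0 < x 2 - x 1
        nlinarith
      · exact absurd rfl hj
  exact key j hij

/-- The Coxeter matrix with all off-diagonal entries infinite (denoted `0` in Mathlib). -/
def M : CoxeterMatrix (Fin 3) where
  M := Matrix.of fun i j => if i = j then 1 else 0
  isSymm := by
    ext i j
    rw [Matrix.transpose_apply, Matrix.of_apply, Matrix.of_apply]
    by_cases h : i = j
    · simp [h]
    · rw [if_neg h, if_neg (Ne.symm h)]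
  diagonal := fun i => by simp
  off_diagonal := fun i j h => by simp [h]

/-- The universal Coxeter group of rank three. -/
abbrev W : Type := M.Group

/-- Its Coxeter system. -/
def cs : CoxeterSystem M W := M.toCoxeterSystem

theorem liftable : M.IsLiftable Au := by
  intro i j
  show (Au i * Au j) ^ (if i = j then 1 else 0) = 1
  split_ifs with h
  · subst h
    rw [pow_one]
    ext1
    exact A_sq i
  · exact pow_zero _

/-- The representation by half-turns. -/
def ρ : W →* (Matrix (Fin 3) (Fin 3) ℝ)ˣ := cs.lift ⟨Au, liftable⟩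

theorem ρ_simple (i : Fin 3) : (ρ (cs.simple i)).val = A i := by
  rw [ρ, CoxeterSystem.lift_apply_simple]
  rfl

theorem ρ_simple_mul (i : Fin 3) (w : W) (x : Fin 3 → ℝ) :
    (ρ (cs.simple i * w)).val *ᵥ x = A i *ᵥ ((ρ w).val *ᵥ x) := by
  rw [map_mul, Units.val_mul, ρ_simple, Matrix.mulVec_mulVec]

theorem ρ_mem (w : W) {x : Fin 3 → ℝ} (hx : x ∈ C) : (ρ w).val *ᵥ x ∈ C := by
  induction w using cs.simple_induction_left with
  | one => rw [map_one, Units.val_one, Matrix.one_mulVec]; exact hx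
  | mul_simple_left w i ih =>
    rw [ρ_simple_mul]
    exact A_mem i ih

theorem ρ_det (w : W) : (ρ w).val.det = 1 := by
  induction w using cs.simple_induction_left with
  | one => rw [map_one, Units.val_one, Matrix.det_one]
  | mul_simple_left w i ih =>
    rw [map_mul, Units.val_mul, Matrix.det_mul, ih, ρ_simple, A_det, mul_one]

/-- The entries are integers. -/
theorem ρ_int (w : W) : ∃ N : Matrix (Fin 3) (Fin 3) ℤ, (ρ w).val = N.map (Int.cast : ℤ → ℝ) := by
  induction w using cs.simple_induction_left with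
  | one => exact ⟨1, by rw [map_one, Units.val_one]; ext i j; simp [Matrix.one_apply]⟩
  | mul_simple_left w i ih =>
    obtain ⟨N, hN⟩ := ih
    have hA : ∃ N' : Matrix (Fin 3) (Fin 3) ℤ, A i = N'.map (Int.cast : ℤ → ℝ) := by
      fin_cases i
      · exact ⟨!![0, 0, 1; 0, -1, 0; 1, 0, 0], by
          ext a b; fin_cases a <;> fin_cases b <;> simp [A]⟩
      · exact ⟨!![1, -4, 4; 1, -3, 2; 1, -2, 1], by
          ext a b; fin_cases a <;> fin_cases b <;> simp [A]⟩
      · exact ⟨!![1, 4, 4; -1, -3, -2; 1, 2, 1], by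
          ext a b; fin_cases a <;> fin_cases b <;> simp [A]⟩
    obtain ⟨N', hN'⟩ := hA
    refine ⟨N' * N, ?_⟩
    rw [map_mul, Units.val_mul, ρ_simple, hN, hN']
    ext a b
    simp [Matrix.mul_apply]

theorem discrete (w : W)
    (h : ∀ i j, |(ρ w).val i j - (1 : Matrix (Fin 3) (Fin 3) ℝ) i j| < 1) : ρ w = 1 := by
  obtain ⟨N, hN⟩ := ρ_int w
  apply Units.ext
  rw [Units.val_one]
  ext i j
  have h1 := h i j
  rw [hN] at h1 ⊢
  have h2 : (1 : Matrix (Fin 3) (Fin 3) ℝ) i j = ((1 : Matrix (Fin 3) (Fin 3) ℤ) i j : ℤ) := by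
    rw [Matrix.one_apply, Matrix.one_apply]
    split_ifs <;> simp
  rw [h2] at h1 ⊢
  rw [Matrix.map_apply] at h1 ⊢
  have h3 : |N i j - (1 : Matrix (Fin 3) (Fin 3) ℤ) i j| < 1 := by exact_mod_cast h1
  rw [Int.abs_lt_one_iff] at h3
  rw [sub_eq_zero.1 h3]

/-- The base point. -/
def x0 : Fin 3 → ℝ := ![2, 0, 1]

theorem x0_mem : x0 ∈ C := by
  refine ⟨?_, ?_⟩
  · show (0 : ℝ) < 2
    norm_num
  · show (0 : ℝ) ^ 2 < 2 * 1
    norm_num

theorem al_x0 (i : Fin 3) : 0 < al i x0 := by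
  fin_cases i
  · show (0 : ℝ) < 2 - 1
    norm_num
  · show (0 : ℝ) < 1 - 0
    norm_num
  · show (0 : ℝ) < 0 + 1
    norm_num

/-- Every element is the product of a word without two equal consecutive letters. -/
theorem exists_word (w : W) : ∃ l : List (Fin 3), l.IsChain (· ≠ ·) ∧ cs.wordProd l = w := by
  induction w using cs.simple_induction_left with
  | one => exact ⟨[], by simp, by simp⟩
  | mul_simple_left w i ih =>
    obtain ⟨l, hl, rfl⟩ := ih
    cases l with
    | nil => exact ⟨[i], by simp, by simp⟩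
    | cons j l =>
      by_cases hij : i = j
      · subst hij
        exact ⟨l, hl.tail, by rw [cs.wordProd_cons, cs.simple_mul_simple_cancel_left]⟩
      · exact ⟨i :: j :: l, List.isChain_cons_cons.2 ⟨hij, hl⟩, by rw [cs.wordProd_cons i]⟩

/-- A nontrivial element moves the base point across one of the three geodesics. -/
theorem ping (l : List (Fin 3)) (i : Fin 3) (hl : (i :: l).IsChain (· ≠ ·)) :
    al i ((ρ (cs.wordProd (i :: l))).val *ᵥ x0) < 0 := by
  induction l generalizing i with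
  | nil =>
    rw [cs.wordProd_cons, ρ_simple_mul, cs.wordProd_nil, map_one, Units.val_one,
      Matrix.one_mulVec, al_A]
    have := al_x0 i
    linarith
  | cons j l ih =>
    have h1 := ih j hl.tail
    have h2 : i ≠ j := (List.isChain_cons_cons.1 hl).1
    rw [cs.wordProd_cons, ρ_simple_mul, al_A]
    have := al_pos (ρ_mem _ x0_mem) h2 h1
    linarith

theorem ρ_injective : Function.Injective ρ := by
  rw [injective_iff_map_eq_one]
  intro w hw
  obtain ⟨l, hl, rfl⟩ := exists_word w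
  cases l with
  | nil => exact cs.wordProd_nil
  | cons i l =>
    exfalso
    have h1 := ping l i hl
    rw [hw, Units.val_one, Matrix.one_mulVec] at h1
    exact absurd h1 (not_lt.2 (al_x0 i).le)

end Pool.Agent.Q188.Half
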