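import Pool.Agent.Q188.Half.Group

/-!
# Reduction theory for the group of half-turns
-/

set_option autoImplicit false
open Matrix

namespace Pool.Agent.Q188.Half

/-- The last row of the matrices. -/
theorem row (w : W) : ∃ c d : ℤ, ∀ x : Fin 3 → ℝ,
    ((ρ w).val *ᵥ x) 2 = (c : ℝ) ^ 2 * x 0 + 2 * c * d * x 1 + (d : ℝ) ^ 2 * x 2 := by
  induction w using cs.simple_induction_right with
  | one =>
    refine ⟨0, 1, fun x => ?_⟩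
    rw [map_one, Units.val_one, Matrix.one_mulVec]
    push_cast
    ring
  | mul_simple_right w i ih =>
    obtain ⟨c, d, h⟩ := ih
    have e : ∀ x : Fin 3 → ℝ, (ρ (w * cs.simple i)).val *ᵥ x = (ρ w).val *ᵥ (A i *ᵥ x) := by
      intro x
      rw [map_mul, Units.val_mul, ρ_simple, Matrix.mulVec_mulVec]
    fin_cases i
    · refine ⟨d, -c, fun x => ?_⟩
      rw [e, h]
      show (c : ℝ) ^ 2 * (A 0 *ᵥ x) 0 + 2 * c * d * (A 0 *ᵥ x) 1 + (d : ℝ) ^ 2 * (A 0 *ᵥ x) 2 = _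
      rw [A_mulVec0]
      show (c : ℝ) ^ 2 * x 2 + 2 * c * d * (-x 1) + (d : ℝ) ^ 2 * x 0 = _
      push_cast
      ring
    · refine ⟨c + d, -2 * c - d, fun x => ?_⟩
      rw [e, h]
      show (c : ℝ) ^ 2 * (A 1 *ᵥ x) 0 + 2 * c * d * (A 1 *ᵥ x) 1 + (d : ℝ) ^ 2 * (A 1 *ᵥ x) 2 = _
      rw [A_mulVec1]
      show (c : ℝ) ^ 2 * (x 0 - 4 * x 1 + 4 * x 2) + 2 * c * d * (x 0 - 3 * x 1 + 2 * x 2) +
        (d : ℝ) ^ 2 * (x 0 - 2 * x 1 + x 2) = _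
      push_cast
      ring
    · refine ⟨c - d, 2 * c - d, fun x => ?_⟩
      rw [e, h]
      show (c : ℝ) ^ 2 * (A 2 *ᵥ x) 0 + 2 * c * d * (A 2 *ᵥ x) 1 + (d : ℝ) ^ 2 * (A 2 *ᵥ x) 2 = _
      rw [A_mulVec2]
      show (c : ℝ) ^ 2 * (x 0 + 4 * x 1 + 4 * x 2) + 2 * c * d * (-x 0 - 3 * x 1 - 2 * x 2) +
        (d : ℝ) ^ 2 * (x 0 + 2 * x 1 + x 2) = _
      push_cast
      ring

/-- In every orbit the last coordinate takes a least value. -/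
theorem exists_min {x : Fin 3 → ℝ} (hx : x ∈ C) :
    ∃ w : W, ∀ w' : W, ((ρ w).val *ᵥ x) 2 ≤ ((ρ w').val *ᵥ x) 2 := by
  have h2 := pos2 hx
  obtain ⟨h0, h1⟩ := hx
  have hD : 0 < x 0 * x 2 - x 1 ^ 2 := by linarith
  let q : ℤ × ℤ → ℝ := fun p => (p.1 : ℝ) ^ 2 * x 0 + 2 * p.1 * p.2 * x 1 + (p.2 : ℝ) ^ 2 * x 2
  have hT : {p : ℤ × ℤ | q p ≤ x 2}.Finite := by
    obtain ⟨N, hN⟩ := exists_nat_ge (max (x 2 * x 2 / (x 0 * x 2 - x 1 ^ 2))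
      (x 0 * x 2 / (x 0 * x 2 - x 1 ^ 2)))
    have hsub : {p : ℤ × ℤ | q p ≤ x 2} ⊆ Set.Icc (-(N : ℤ)) N ×ˢ Set.Icc (-(N : ℤ)) N := by
      rintro ⟨c, d⟩ hp
      have hp' : (c : ℝ) ^ 2 * x 0 + 2 * c * d * x 1 + (d : ℝ) ^ 2 * x 2 ≤ x 2 := hp
      have hsq : ∀ a : ℤ, |(a : ℝ)| ≤ (a : ℝ) ^ 2 := by
        intro a
        have : |a| ≤ a ^ 2 := by
          rw [← sq_abs]
          rcases eq_or_lt_of_le (abs_nonneg a) with h | h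
          · rw [← h]; norm_num
          · nlinarith
        exact_mod_cast this
      have hc : (c : ℝ) ^ 2 ≤ x 2 * x 2 / (x 0 * x 2 - x 1 ^ 2) := by
        rw [le_div_iff₀ hD]
        nlinarith [sq_nonneg ((c : ℝ) * x 1 + d * x 2)]
      have hd : (d : ℝ) ^ 2 ≤ x 0 * x 2 / (x 0 * x 2 - x 1 ^ 2) := by
        rw [le_div_iff₀ hD]
        nlinarith [sq_nonneg ((c : ℝ) * x 0 + d * x 1)]
      have hcN : |(c : ℝ)| ≤ N := (hsq c).trans (hc.trans ((le_max_left _ _).trans hN))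
      have hdN : |(d : ℝ)| ≤ N := (hsq d).trans (hd.trans ((le_max_right _ _).trans hN))
      have hcN' : |c| ≤ (N : ℤ) := by exact_mod_cast hcN
      have hdN' : |d| ≤ (N : ℤ) := by exact_mod_cast hdN
      exact ⟨abs_le.1 hcN', abs_le.1 hdN'⟩
    exact ((Set.finite_Icc _ _).prod (Set.finite_Icc _ _)).subset hsub
  have hS : {v : ℝ | ∃ w : W, v = ((ρ w).val *ᵥ x) 2 ∧ v ≤ x 2}.Finite := by
    refine (hT.image q).subset ?_
    rintro v ⟨w, hv, hle⟩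
    obtain ⟨c, d, h⟩ := row w
    refine ⟨(c, d), ?_, ?_⟩
    · show (c : ℝ) ^ 2 * x 0 + 2 * c * d * x 1 + (d : ℝ) ^ 2 * x 2 ≤ x 2
      rw [← h x, ← hv]
      exact hle
    · show (c : ℝ) ^ 2 * x 0 + 2 * c * d * x 1 + (d : ℝ) ^ 2 * x 2 = v
      rw [← h x, ← hv]
  obtain ⟨v, ⟨w, hv, hle⟩, hmin⟩ := Set.exists_min_image _ id hS
    ⟨x 2, 1, by rw [map_one, Units.val_one, Matrix.one_mulVec], le_rfl⟩
  refine ⟨w, fun w' => ?_⟩
  rw [← hv]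
  rcases le_total (((ρ w').val *ᵥ x) 2) (x 2) with h | h
  · exact hmin _ ⟨w', rfl, h⟩
  · exact hle.trans h

/-- The translation by `3 m`. -/
def Tf (m : ℤ) (x : Fin 3 → ℝ) : Fin 3 → ℝ :=
  ![x 0 + 6 * m * x 1 + 9 * (m : ℝ) ^ 2 * x 2, x 1 + 3 * m * x 2, x 2]

/-- The parabolic element. -/
def tr : W := cs.simple 1 * (cs.simple 0 * cs.simple 2)

theorem ρ_tr (x : Fin 3 → ℝ) : (ρ tr).val *ᵥ x = Tf 1 x := by
  rw [tr, ρ_simple_mul, ρ_simple_mul, ρ_simple, A_mulVec1, A_mulVec0, A_mulVec2]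
  ext i
  fin_cases i <;> simp [Tf] <;> ring

theorem ρ_tr_inv (x : Fin 3 → ℝ) : (ρ tr⁻¹).val *ᵥ x = Tf (-1) x := by
  have e : tr⁻¹ = cs.simple 2 * (cs.simple 0 * cs.simple 1) := by
    rw [tr, _root_.mul_inv_rev, _root_.mul_inv_rev, cs.inv_simple, cs.inv_simple, cs.inv_simple, mul_assoc]
  rw [e, ρ_simple_mul, ρ_simple_mul, ρ_simple, A_mulVec2, A_mulVec0, A_mulVec1]
  ext i
  fin_cases i <;> simp [Tf] <;> ring

theorem Tf_Tf (m n : ℤ) (x : Fin 3 → ℝ) : Tf m (Tf n x) = Tf (m + n) x := by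
  ext i
  fin_cases i <;> simp [Tf] <;> ring

theorem ρ_mul_mulVec (w w' : W) (x : Fin 3 → ℝ) :
    (ρ (w * w')).val *ᵥ x = (ρ w).val *ᵥ ((ρ w').val *ᵥ x) := by
  rw [map_mul, Units.val_mul, Matrix.mulVec_mulVec]

theorem ρ_tr_zpow (m : ℤ) (x : Fin 3 → ℝ) : (ρ (tr ^ m)).val *ᵥ x = Tf m x := by
  induction m generalizing x with
  | zero =>
    rw [zpow_zero, map_one, Units.val_one, Matrix.one_mulVec]
    ext i
    fin_cases i <;> simp [Tf]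
  | succ n ih => rw [_root_.zpow_add_one, ρ_mul_mulVec, ρ_tr, ih, Tf_Tf]
  | pred n ih => rw [_root_.zpow_sub_one, ρ_mul_mulVec, ρ_tr_inv, ih, Tf_Tf]; rfl

/-- The fundamental region. -/
def F : Set (Fin 3 → ℝ) :=
  {x | x ∈ C ∧ -(3 * x 2) ≤ 2 * x 1 ∧ 2 * x 1 ≤ 3 * x 2 ∧ x 2 ^ 2 ≤ 4 * (x 0 * x 2 - x 1 ^ 2)}

theorem covers {x : Fin 3 → ℝ} (hx : x ∈ C) : ∃ w : W, (ρ w).val *ᵥ x ∈ F := by
  obtain ⟨w, hw⟩ := exists_min hx
  set y := (ρ w).val *ᵥ x with hy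
  have hyC : y ∈ C := ρ_mem w hx
  have hy2 := pos2 hyC
  set m : ℤ := round (-y 1 / (3 * y 2)) with hm
  refine ⟨tr ^ m * w, ?_⟩
  rw [ρ_mul_mulVec, ← hy, ρ_tr_zpow]
  have hzC : Tf m y ∈ C := by
    rw [← ρ_tr_zpow]
    exact ρ_mem _ hyC
  have hmin : ∀ i, (Tf m y) 2 ≤ (A i *ᵥ Tf m y) 2 := by
    intro i
    have h1 := hw (cs.simple i * (tr ^ m * w))
    rw [ρ_simple_mul, ρ_mul_mulVec, ← hy, ρ_tr_zpow] at h1
    exact h1
  set z := Tf m y with hz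
  have hz2 : z 2 = y 2 := rfl
  have hz1 : z 1 = y 1 + 3 * m * y 2 := rfl
  have h0 : z 2 ≤ z 0 := by
    have := hmin 0
    rwa [A_mulVec0] at this
  have h1 : z 2 ≤ z 0 - 2 * z 1 + z 2 := by
    have := hmin 1
    rwa [A_mulVec1] at this
  have h2 : z 2 ≤ z 0 + 2 * z 1 + z 2 := by
    have := hmin 2
    rwa [A_mulVec2] at this
  have hr := abs_sub_round (-y 1 / (3 * y 2))
  rw [← hm, abs_le] at hr
  have h3 : (0 : ℝ) < 3 * y 2 := by linarith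
  have e : -y 1 / (3 * y 2) * (3 * y 2) = -y 1 := div_mul_cancel₀ _ h3.ne'
  have h4 : -(3 * z 2) ≤ 2 * z 1 := by
    rw [hz2, hz1]
    nlinarith [hr.2]
  have h5 : 2 * z 1 ≤ 3 * z 2 := by
    rw [hz2, hz1]
    nlinarith [hr.1]
  have hz2' : 0 < z 2 := hy2
  refine ⟨hzC, h4, h5, ?_⟩
  rcases le_total (2 * z 1) (z 2) with h | h
  · rcases le_total (-(z 2)) (2 * z 1) with h' | h'
    · nlinarith
    · nlinarith
  · nlinarith

end Pool.Agent.Q188.Half
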